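import Pool.Agent.V11139.CDFam

/-!
# Two-colourings of a graph in which no block of maximum size is monochromatic
-/

set_option autoImplicit false

namespace Pool.Agent.V11139.CD

open Pool.Agent.Y12.CR

/-- Connected with at least two vertices and no cut vertex. -/
def TC {U : Type} (B : SimpleGraph U) : Prop :=
  Nontrivial U ∧ ∀ X Y : Set U, X.Nonempty → Y.Nonempty → (∀ x, x ∈ X → x ∉ Y) →
    (∀ x ∈ X, ∀ y ∈ Y, ¬ B.Adj x y) → ∃ x y, x ≠ y ∧ x ∉ X ∧ x ∉ Y ∧ y ∉ X ∧ y ∉ Y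

theorem TC.noCut {U : Type} {B : SimpleGraph U} (h : TC B) : NoCut B := by
  classical
  obtain ⟨hnt, h⟩ := h
  refine ⟨?_, ?_, ?_⟩
  · by_contra hcon
    push Not at hcon
    obtain ⟨x, y, hxy⟩ := exists_pair_ne U
    obtain ⟨z, -, -, h1, h2, -⟩ := h {x} {x}ᶜ ⟨x, rfl⟩ ⟨y, hxy.symm⟩ (fun a ha hb => hb ha)
      (fun a _ b _ => hcon a b)
    exact h2 h1
  · intro a b
    by_contra hcon
    obtain ⟨z, -, -, h1, h2, -⟩ := h {c | B.Reachable a c} {c | ¬ B.Reachable a c}
      ⟨a, SimpleGraph.Reachable.refl _⟩ ⟨b, hcon⟩ (fun x hx hy => hy hx)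
      (fun x hx y hy hadj => hy (SimpleGraph.Reachable.trans hx hadj.reachable))
    exact h2 h1
  · intro z a b
    by_contra hcon
    obtain ⟨x, y, hxy, h1, h2, h3, h4⟩ := h
      {c | ∃ hc : c ∈ ({z}ᶜ : Set U), (B.induce {z}ᶜ).Reachable a ⟨c, hc⟩}
      {c | ∃ hc : c ∈ ({z}ᶜ : Set U), ¬ (B.induce {z}ᶜ).Reachable a ⟨c, hc⟩}
      ⟨a, a.2, SimpleGraph.Reachable.refl _⟩ ⟨b, b.2, hcon⟩
      (by rintro x ⟨hx, h1⟩ ⟨_, h2⟩; exact h2 h1)
      (by
        rintro x ⟨hx, h1⟩ y ⟨hy, h2⟩ hadj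
        apply h2
        refine h1.trans (SimpleGraph.Adj.reachable ?_)
        exact hadj)
    have key : ∀ w, w ∉ {c | ∃ hc : c ∈ ({z}ᶜ : Set U), (B.induce {z}ᶜ).Reachable a ⟨c, hc⟩} →
        w ∉ {c | ∃ hc : c ∈ ({z}ᶜ : Set U), ¬ (B.induce {z}ᶜ).Reachable a ⟨c, hc⟩} → w = z := by
      intro w hw1 hw2
      by_contra hne
      by_cases hr : (B.induce {z}ᶜ).Reachable a ⟨w, hne⟩
      · exact hw1 ⟨hne, hr⟩
      · exact hw2 ⟨hne, hr⟩
    exact hxy ((key x h1 h2).trans (key y h3 h4).symm)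

theorem block_step {U V : Type} [Finite V] {B : SimpleGraph U} (hB : TC B) (F : SimpleGraph V)
    (hmax : ∀ S : Set V, TC (F.induce S) → S.ncard ≤ Nat.card U) :
    ∀ (n : ℕ) (W : Set V), W.ncard = n → ∃ κ : Set V, ∀ f : B ↪g F, (∀ a, f a ∈ W) →
      (∃ a, f a ∉ κ) ∧ ∃ a, f a ∈ κ := by
  classical
  have hnt := hB.1
  intro n
  induction n using Nat.strong_induction_on with
  | _ n ih =>
    intro W hW
    by_cases hsub : W.Subsingleton
    · refine ⟨∅, fun f hf => ?_⟩
      obtain ⟨x, y, hxy⟩ := exists_pair_ne U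
      exact (hxy (f.injective (hsub (hf x) (hf y)))).elim
    · rw [Set.not_subsingleton_iff] at hsub
      by_cases hTC : TC (F.induce W)
      · obtain ⟨w, hw⟩ := hsub.nonempty
        refine ⟨{w}, fun f hf => ?_⟩
        have h1 : Set.range f ⊆ W := by
          rintro _ ⟨a, rfl⟩
          exact hf a
        have h2 : (Set.range f).ncard = Nat.card U := by
          rw [← Set.image_univ, Set.ncard_image_of_injective _ f.injective, Set.ncard_univ]
        have h3 : Set.range f = W :=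
          Set.eq_of_subset_of_ncard_le h1 (by rw [h2]; exact hmax W hTC) (Set.toFinite _)
        constructor
        · obtain ⟨x, y, hxy⟩ := exists_pair_ne U
          by_contra hcon
          push Not at hcon
          have hx : f x = w := hcon x
          have hy : f y = w := hcon y
          exact hxy (f.injective (hx.trans hy.symm))
        · rw [← h3] at hw
          obtain ⟨a, ha⟩ := hw
          exact ⟨a, ha⟩
      · -- separation
        have hntW : Nontrivial W := hsub.coe_sort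
        have hsep : ∃ X Y : Set W, X.Nonempty ∧ Y.Nonempty ∧ (∀ x, x ∈ X → x ∉ Y) ∧
            (∀ x ∈ X, ∀ y ∈ Y, ¬ (F.induce W).Adj x y) ∧
            ∀ x y, x ∉ X → x ∉ Y → y ∉ X → y ∉ Y → x = y := by
          by_contra hcon
          push Not at hcon
          apply hTC
          refine ⟨hntW, fun X Y hX hY hXY hadj => ?_⟩
          obtain ⟨x, y, h1, h2, h3, h4, h5⟩ := hcon X Y hX hY hXY hadj
          exact ⟨x, y, h5, h1, h2, h3, h4⟩
        obtain ⟨X, Y, ⟨x0, hx0⟩, ⟨y0, hy0⟩, hXY, hadj, hZ⟩ := hsep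
        let X' : Set V := Subtype.val '' X
        let Y' : Set V := Subtype.val '' Y
        have hX' : ∀ (x : V) (hx : x ∈ W), x ∈ X' ↔ (⟨x, hx⟩ : W) ∈ X := by
          intro x hx
          constructor
          · rintro ⟨y, hy, rfl⟩; exact hy
          · intro h; exact ⟨_, h, rfl⟩
        have hY' : ∀ (x : V) (hx : x ∈ W), x ∈ Y' ↔ (⟨x, hx⟩ : W) ∈ Y := by
          intro x hx
          constructor
          · rintro ⟨y, hy, rfl⟩; exact hy
          · intro h; exact ⟨_, h, rfl⟩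
        have hXW : X' ⊆ W := by rintro _ ⟨y, -, rfl⟩; exact y.2
        have hYW : Y' ⊆ W := by rintro _ ⟨y, -, rfl⟩; exact y.2
        have hdis : ∀ x, x ∈ X' → x ∉ Y' := by
          intro x hx hy
          exact hXY ⟨x, hXW hx⟩ ((hX' x _).1 hx) ((hY' x _).1 hy)
        have hlt1 : (W \ Y').ncard < n := by
          rw [← hW]
          apply Set.ncard_lt_ncard _ (Set.toFinite _)
          exact ⟨Set.sdiff_subset, fun h => (h y0.2).2 ((hY' _ _).2 hy0)⟩
        have hlt2 : (W \ X').ncard < n := by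
          rw [← hW]
          apply Set.ncard_lt_ncard _ (Set.toFinite _)
          exact ⟨Set.sdiff_subset, fun h => (h x0.2).2 ((hX' _ _).2 hx0)⟩
        obtain ⟨κ1, hκ1⟩ := ih _ hlt1 (W \ Y') rfl
        obtain ⟨κ2, hκ2⟩ := ih _ hlt2 (W \ X') rfl
        have hκ3 : ∃ κ3 : Set V, (∀ f : B ↪g F, (∀ a, f a ∈ W \ X') →
            (∃ a, f a ∉ κ3) ∧ ∃ a, f a ∈ κ3) ∧
            ∀ z ∈ W, z ∉ X' → z ∉ Y' → (z ∈ κ1 ↔ z ∈ κ3) := by
          by_cases hz : ∃ z ∈ W, z ∉ X' ∧ z ∉ Y' ∧ ¬ (z ∈ κ1 ↔ z ∈ κ2)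
          · obtain ⟨z, hz, hzX, hzY, hzκ⟩ := hz
            refine ⟨κ2ᶜ, fun f hf => ?_, fun z' hz' h1 h2 => ?_⟩
            · obtain ⟨⟨a, ha⟩, b, hb⟩ := hκ2 f hf
              exact ⟨⟨b, fun h => h hb⟩, a, ha⟩
            · have h3 := hZ ⟨z, hz⟩ ⟨z', hz'⟩ (fun h => hzX ((hX' _ _).2 h))
                (fun h => hzY ((hY' _ _).2 h)) (fun h => h1 ((hX' _ _).2 h))
                (fun h => h2 ((hY' _ _).2 h))
              have h4 : z = z' := congrArg Subtype.val h3
              subst h4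
              rw [Set.mem_compl_iff]
              tauto
          · push Not at hz
            refine ⟨κ2, hκ2, fun z hzW h1 h2 => ?_⟩
            have := hz z hzW h1 h2
            tauto
        obtain ⟨κ3, hκ3, hag⟩ := hκ3
        refine ⟨{x | (x ∉ Y' ∧ x ∈ κ1) ∨ (x ∈ Y' ∧ x ∈ κ3)}, fun f hf => ?_⟩
        by_cases hfX : ∃ a, f a ∈ X'
        · by_cases hfY : ∃ a, f a ∈ Y'
          · exfalso
            obtain ⟨a, ha⟩ := hfX
            obtain ⟨b, hb⟩ := hfY
            obtain ⟨x, y, hxy, h1, h2, h3, h4⟩ := hB.2 {a | f a ∈ X'} {a | f a ∈ Y'} ⟨a, ha⟩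
              ⟨b, hb⟩ (fun x hx hy => hdis _ hx hy) (by
                intro x hx y hy hadj'
                have h5 : (F.induce W).Adj ⟨f x, hf x⟩ ⟨f y, hf y⟩ := f.map_adj_iff.2 hadj'
                exact hadj _ ((hX' _ _).1 hx) _ ((hY' _ _).1 hy) h5)
            have h5 := hZ ⟨f x, hf x⟩ ⟨f y, hf y⟩ (fun h => h1 ((hX' _ _).2 h))
              (fun h => h2 ((hY' _ _).2 h)) (fun h => h3 ((hX' _ _).2 h))
              (fun h => h4 ((hY' _ _).2 h))
            exact hxy (f.injective (congrArg Subtype.val h5))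
          · push Not at hfY
            obtain ⟨⟨a, ha⟩, b, hb⟩ := hκ1 f (fun a => ⟨hf a, hfY a⟩)
            refine ⟨⟨a, ?_⟩, b, Or.inl ⟨hfY b, hb⟩⟩
            rintro (⟨-, h⟩ | ⟨h, -⟩)
            · exact ha h
            · exact hfY a h
        · push Not at hfX
          obtain ⟨⟨a, ha⟩, b, hb⟩ := hκ3 f (fun a => ⟨hf a, hfX a⟩)
          refine ⟨⟨a, ?_⟩, b, ?_⟩
          · rintro (⟨h1, h2⟩ | ⟨-, h2⟩)
            · exact ha ((hag _ (hf a) (hfX a) h1).1 h2)
            · exact ha h2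
          · by_cases h1 : f b ∈ Y'
            · exact Or.inr ⟨h1, hb⟩
            · exact Or.inl ⟨h1, (hag _ (hf b) (hfX b) h1).2 hb⟩

/-- Every connected graph with at least two vertices contains an induced connected graph `B` without
cut vertex such that the vertices can be partitioned into two sets without induced `B`. -/
theorem exists_block {V : Type} [Finite V] [Nontrivial V] (F : SimpleGraph V) (hF : F.Connected) :
    ∃ S : Set V, NoCut (F.induce S) ∧ ∃ κ : Set V, ∀ f : F.induce S ↪g F,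
      (∃ a, f a ∉ κ) ∧ ∃ a, f a ∈ κ := by
  classical
  have hex : ∃ S : Set V, TC (F.induce S) := by
    obtain ⟨x, -, -⟩ := exists_pair_ne V
    obtain ⟨y, hxy⟩ := hF.preconnected.exists_adj_of_nontrivial x
    refine ⟨{x, y}, ?_, ?_⟩
    · exact (Set.nontrivial_pair hxy.ne).coe_sort
    · intro X Y ⟨a, ha⟩ ⟨b, hb⟩ hXY hadj
      exfalso
      have hab : (a : V) ≠ b := fun h => hXY a ha ((Subtype.ext h : a = b) ▸ hb)
      apply hadj a ha b hb
      change F.Adj a b
      have h1 := a.2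
      have h2 := b.2
      simp only [Set.mem_insert_iff, Set.mem_singleton_iff] at h1 h2
      rcases h1 with h1 | h1 <;> rcases h2 with h2 | h2
      · exact absurd (h1.trans h2.symm) hab
      · rw [h1, h2]; exact hxy
      · rw [h1, h2]; exact hxy.symm
      · exact absurd (h1.trans h2.symm) hab
  have hfin : {S : Set V | TC (F.induce S)}.Finite := Set.toFinite _
  obtain ⟨S, hS, hmax⟩ := Set.exists_max_image _ Set.ncard hfin hex
  refine ⟨S, hS.noCut, ?_⟩
  obtain ⟨κ, hκ⟩ := block_step hS F (fun T hT => by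
    have := hmax T hT
    rwa [← Nat.card_coe_set_eq S] at this) _ Set.univ rfl
  exact ⟨κ, fun f => hκ f (fun _ => Set.mem_univ _)⟩

end Pool.Agent.V11139.CD
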