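import Pool.Agent.Y12.CR.Main

/-!
# The main recursion with finitely many forbidden graphs

A generalisation of `Pool.Agent.Y12.CR.recursion` and `Pool.Agent.Y12.CR.core` (one forbidden graph
without cut vertex) to finitely many forbidden graphs without cut vertex.
-/

set_option autoImplicit false

namespace Pool.Agent.V11139.CD

open Pool.Agent.Y12.CR

variable {ι : Type} [Finite ι] {U : ι → Type} [∀ t, Finite (U t)] {F : ∀ t, SimpleGraph (U t)}

/-- Vertex Folkman theorem for finitely many forbidden graphs without cut vertex. -/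
theorem folkmanFam (hF : ∀ t, NoCut (F t)) {V : Type} [Finite V]
    (A : SimpleGraph V) (hA : ∀ t, IsEmpty (F t ↪g A)) {r : ℕ} (hr : 1 ≤ r) :
    ∃ (Q : Type) (_ : Finite Q) (R : SimpleGraph Q), (∀ t, IsEmpty (F t ↪g R)) ∧
      ∀ c : Q → Fin r, ∃ (i : Fin r) (e : A ↪g R), ∀ a, c (e a) = i := by
  classical
  have : Fintype ι := Fintype.ofFinite ι
  obtain ⟨W, E, _, _, e, he, hc⟩ :=
    hyp hr (Finset.univ.sup (fun t : ι => Nat.card (U t) * Nat.card (U t)) + 2) V
  refine ⟨W, inferInstance, blow A e, fun t => blow_free (hF t) A e ?_ he (hA t), fun c => ?_⟩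
  · have := Finset.le_sup (f := fun t : ι => Nat.card (U t) * Nat.card (U t)) (Finset.mem_univ t)
    omega
  obtain ⟨i, a, ha⟩ := hc c
  refine ⟨i, ⟨e a, ?_⟩, ha⟩
  intro x y
  constructor
  · rintro ⟨a', x', y', h1, h2, h3⟩
    by_cases haa : a' = a
    · subst haa
      rw [← (e a').injective h1, ← (e a').injective h2]
      exact h3
    · exfalso
      obtain ⟨p, hp, q, hq, hpq, hlp, hlq⟩ := he {a, a'} (by rw [Finset.card_pair (Ne.symm haa)])
        (by rw [Finset.card_pair (Ne.symm haa)]; omega)
      have hla : Leaf e {a, a'} a := by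
        rcases Finset.mem_insert.1 hp with rfl | hp
        · exact hlp
        · rcases Finset.mem_insert.1 hq with rfl | hq
          · exact hlq
          · exact (hpq ((Finset.mem_singleton.1 hp).trans (Finset.mem_singleton.1 hq).symm)).elim
      have h4 := hla (e a x) (e a y) ⟨x, rfl⟩ ⟨y, rfl⟩ ⟨a', by simp, haa, ⟨x', h1⟩⟩
        ⟨a', by simp, haa, ⟨y', h2⟩⟩
      rw [← h1, ← h2] at h4
      exact h3.ne ((e a').injective h4)
  · intro h
    exact ⟨a, x, y, rfl, rfl, h⟩

/-- The main recursion. -/
theorem recursionFam (hF : ∀ t, NoCut (F t)) {V : Type} [Finite V]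
    (G : SimpleGraph V) (κ : Set V) (h1 : ∀ (t : ι) (f : F t ↪g G), ∃ a, f a ∉ κ)
    (h2 : ∀ (t : ι) (f : F t ↪g G), ∃ a, f a ∈ κ) {r : ℕ} (hr : 1 ≤ r) (j : ℕ) :
    ∀ (B : Type) [Finite B] (P : SimpleGraph B), (∀ t, IsEmpty (F t ↪g P)) →
    ∃ (W : Type) (_ : Finite W) (H : SimpleGraph W),
      (∃ p : W → Fin j, ∀ (t : ι) (i : Fin j) (f : F t ↪g H), ¬ ∀ a, p (f a) = i) ∧
      ∀ c : W → Fin r, (∀ (i : Fin r) (f : G ↪g H), ¬ ∀ a, c (f a) = i) →
        ∃ I : Finset (Fin r), j ≤ I.card ∧ ∀ i ∈ I, ∃ e : P ↪g H, ∀ b, c (e b) = i := by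
  classical
  induction j with
  | zero =>
    intro B _ P _
    exact ⟨Fin 0, inferInstance, ⊥, ⟨id, fun t i => i.elim0⟩, fun c _ => ⟨∅, by simp, by simp⟩⟩
  | succ j ih =>
    intro B _ P hP
    have hin := fun t => inner_free (hF t) G κ (h1 t) (h2 t)
    -- the Ramsey graph for the new layer
    obtain ⟨Q, _, R, hR, hRc⟩ := folkmanFam hF (many (Y := Unit) P (inner G κ))
      (fun t => many_free (hF t) (hP t) (hin t)) hr
    have hfinE : Finite (inner G κ ↪g R) :=
      Finite.of_injective (fun f : inner G κ ↪g R => (f : V → Q)) DFunLike.coe_injective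
    obtain ⟨W, _, H, ⟨p, hp⟩, hH⟩ := ih (B ⊕ ((inner G κ ↪g R) × V))
      (many (Y := (inner G κ ↪g R)) P (inner G κ))
      (fun t => many_free (hF t) (hP t) (hin t))
    refine ⟨W ⊕ ((Q → Set W) × Q), inferInstance, layer H R, ?_, ?_⟩
    · refine ⟨Sum.elim (fun w => (p w).castSucc) (fun _ => Fin.last j), ?_⟩
      intro t i f hf
      refine Fin.lastCases (motive := fun i => (∀ a, Sum.elim (fun w => (p w).castSucc)
        (fun _ => Fin.last j) (f a) = i) → False) ?_ ?_ i hf
      · intro hf
        have hall : ∀ a, ∃ q, f a = Sum.inr q := by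
          intro a
          have h := hf a
          rcases ha : f a with b | q
          · rw [ha, Sum.elim_inl] at h
            exact ((Fin.castSucc_lt_last (p b)).ne h).elim
          · exact ⟨q, rfl⟩
        choose g hg using hall
        have key := const_of_pre (hF t).pre (fun a => (g a).1) (by
          intro a b hab
          have h : (layer H R).Adj (f a) (f b) := f.map_adj_iff.2 hab
          rw [hg a, hg b] at h
          exact h.1)
        refine (hR t).false ⟨⟨fun a => (g a).2, ?_⟩, ?_⟩
        · intro a b hab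
          apply f.injective
          rw [hg a, hg b, Prod.ext (key a b) hab]
        · intro a b
          change R.Adj (g a).2 (g b).2 ↔ (F t).Adj a b
          rw [← f.map_adj_iff, hg a, hg b]
          exact ⟨fun h => ⟨key a b, h⟩, fun h => h.2⟩
      · intro i hf
        have hall : ∀ a, ∃ w, f a = Sum.inl w ∧ p w = i := by
          intro a
          have h := hf a
          rcases ha : f a with b | q
          · rw [ha, Sum.elim_inl] at h
            exact ⟨b, rfl, Fin.castSucc_injective _ h⟩
          · rw [ha, Sum.elim_inr] at h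
            exact ((Fin.castSucc_lt_last i).ne h.symm).elim
        choose g hg hgi using hall
        refine hp t i ⟨⟨g, ?_⟩, ?_⟩ hgi
        · intro a b hab
          apply f.injective
          rw [hg a, hg b, hab]
        · intro a b
          change H.Adj (g a) (g b) ↔ (F t).Adj a b
          rw [← f.map_adj_iff, hg a, hg b]
          exact Iff.rfl
    · intro c hc
      have embL : H ↪g layer H R := ⟨⟨Sum.inl, Sum.inl_injective⟩, Iff.rfl⟩
      obtain ⟨I, hI, hIe⟩ := hH (fun w => c (Sum.inl w)) (by
        intro i f hf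
        refine hc i ⟨⟨fun a => Sum.inl (f a), ?_⟩, ?_⟩ hf
        · intro a b hab
          exact f.injective (Sum.inl_injective hab)
        · intro a b
          exact f.map_adj_iff)
      choose e he using hIe
      -- the attachment map
      let s : Q → Set W := fun q => {w | ∃ (i : Fin r) (hi : i ∈ I) (f : inner G κ ↪g R) (x y : V),
        f y = q ∧ w = e i hi (Sum.inr (f, x)) ∧ G.Adj x y}
      have hs : ∀ (i : Fin r) (hi : i ∈ I) (f : inner G κ ↪g R) (x y : V),
          e i hi (Sum.inr (f, x)) ∈ s (f y) ↔ G.Adj x y := by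
        intro i hi f x y
        constructor
        · rintro ⟨i', hi', f', x', y', h1, h2, h3⟩
          have hcol : i = i' := by
            rw [← he i hi (Sum.inr (f, x)), ← he i' hi' (Sum.inr (f', x')), h2]
          subst hcol
          have h4 := (e i hi).injective h2
          simp only [Sum.inr.injEq, Prod.mk.injEq] at h4
          obtain ⟨rfl, rfl⟩ := h4
          have := f.injective h1
          subst this
          exact h3
        · intro h
          exact ⟨i, hi, f, x, y, rfl, rfl, h⟩
      obtain ⟨i, e', he'⟩ := hRc (fun q => c (Sum.inr (s, q)))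
      by_cases hiI : i ∈ I
      · exfalso
        let f : inner G κ ↪g R := e'.comp (manyR P (inner G κ) ())
        have hf : ∀ x, c (Sum.inr (s, f x)) = i := fun x => he' (Sum.inr ((), x))
        let g : V → W ⊕ ((Q → Set W) × Q) := fun x =>
          if x ∈ κ then Sum.inl (e i hiI (Sum.inr (f, x))) else Sum.inr (s, f x)
        have hg1 : ∀ x, x ∈ κ → g x = Sum.inl (e i hiI (Sum.inr (f, x))) := by
          intro x hx
          simp only [g, hx, if_true]
        have hg2 : ∀ x, x ∉ κ → g x = Sum.inr (s, f x) := by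
          intro x hx
          simp only [g, hx, if_false]
        refine hc i ⟨⟨g, ?_⟩, ?_⟩ ?_
        · intro a b hab
          by_cases ha : a ∈ κ <;> by_cases hb : b ∈ κ
          · rw [hg1 a ha, hg1 b hb] at hab
            have h4 := (e i hiI).injective (Sum.inl_injective hab)
            simpa using h4
          · rw [hg1 a ha, hg2 b hb] at hab
            simp at hab
          · rw [hg2 a ha, hg1 b hb] at hab
            simp at hab
          · rw [hg2 a ha, hg2 b hb] at hab
            have h4 := Sum.inr_injective hab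
            rw [Prod.mk.injEq] at h4
            exact f.injective h4.2
        · intro a b
          change (layer H R).Adj (g a) (g b) ↔ G.Adj a b
          by_cases ha : a ∈ κ <;> by_cases hb : b ∈ κ
          · rw [hg1 a ha, hg1 b hb]
            change H.Adj _ _ ↔ _
            rw [(e i hiI).map_adj_iff]
            exact ⟨fun h => h.2.1, fun h => ⟨rfl, h, by simp [ha, hb]⟩⟩
          · rw [hg1 a ha, hg2 b hb]
            exact hs i hiI f a b
          · rw [hg2 a ha, hg1 b hb, G.adj_comm]
            exact hs i hiI f b a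
          · rw [hg2 a ha, hg2 b hb]
            constructor
            · rintro ⟨-, h⟩
              exact (f.map_adj_iff.1 h).1
            · intro h
              exact ⟨rfl, f.map_adj_iff.2 ⟨h, by simp [ha, hb]⟩⟩
        · intro a
          change c (g a) = i
          by_cases ha : a ∈ κ
          · rw [hg1 a ha]
            exact he i hiI _
          · rw [hg2 a ha]
            exact hf a
      · refine ⟨insert i I, ?_, ?_⟩
        · rw [Finset.card_insert_of_notMem hiI]
          omega
        · intro i' hi'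
          rcases Finset.mem_insert.1 hi' with rfl | hi'
          · refine ⟨⟨⟨fun b => Sum.inr (s, e' (Sum.inl b)), ?_⟩, ?_⟩, fun b => he' _⟩
            · intro a b hab
              have h4 := Sum.inr_injective hab
              rw [Prod.mk.injEq] at h4
              exact Sum.inl_injective (e'.injective h4.2)
            · intro a b
              change (s = s ∧ R.Adj (e' (Sum.inl a)) (e' (Sum.inl b))) ↔ P.Adj a b
              rw [e'.map_adj_iff]
              exact ⟨fun h => h.2, fun h => ⟨rfl, h⟩⟩
          · refine ⟨⟨⟨fun b => Sum.inl (e i' hi' (Sum.inl b)), ?_⟩, ?_⟩, fun b => he i' hi' _⟩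
            · intro a b hab
              exact Sum.inl_injective ((e i' hi').injective (Sum.inl_injective hab))
            · intro a b
              change H.Adj (e i' hi' (Sum.inl a)) (e i' hi' (Sum.inl b)) ↔ P.Adj a b
              rw [(e i' hi').map_adj_iff]
              exact Iff.rfl

/-- The core theorem. -/
theorem coreFam (hF : ∀ t, NoCut (F t)) {V : Type} [Finite V] [Nonempty V]
    (G : SimpleGraph V) (κ : Set V) (h1 : ∀ (t : ι) (f : F t ↪g G), ∃ a, f a ∉ κ)
    (h2 : ∀ (t : ι) (f : F t ↪g G), ∃ a, f a ∈ κ) {l : ℕ} (hl : 2 ≤ l) :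
    ∃ (W : Type) (_ : Finite W) (H : SimpleGraph W),
      (∃ p : W → Fin l, ∀ (t : ι) (i : Fin l) (f : F t ↪g H), ¬ ∀ a, p (f a) = i) ∧
      ∀ (k : ℕ) (c : W → Fin k), k < l → ∃ (i : Fin k) (f : G ↪g H), ∀ a, c (f a) = i := by
  obtain ⟨r, rfl⟩ : ∃ r, l = r + 1 := ⟨l - 1, by omega⟩
  have hempty : ∀ t, IsEmpty (F t ↪g (⊥ : SimpleGraph (Fin 0))) := by
    intro t
    obtain ⟨x, -, -⟩ := (hF t).edge
    exact ⟨fun f => (f x).elim0⟩
  obtain ⟨W, hW, H, ⟨p, hp⟩, hH⟩ := recursionFam hF G κ h1 h2 (show 1 ≤ r by omega) (r + 1)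
    (Fin 0) ⊥ hempty
  refine ⟨W, hW, H, ⟨p, hp⟩, ?_⟩
  intro k c hk
  by_contra hcon
  push Not at hcon
  obtain ⟨I, hI, -⟩ := hH (fun w => Fin.castLE (show k ≤ r by omega) (c w)) (by
    intro i f hf
    obtain ⟨v⟩ := ‹Nonempty V›
    obtain ⟨a, ha⟩ := hcon (c (f v)) f
    exact ha (Fin.castLE_injective _ ((hf a).trans (hf v).symm)))
  have := Finset.card_le_univ I
  rw [Fintype.card_fin] at this
  omega

end Pool.Agent.V11139.CD
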