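import Mathlib

/-!
# Graphs without induced paw and the `F`-free chromatic number

The pair `F = paw`, `G = (paw ⊕ K₇) ⊕ (shift graph on 65 points)` is 2-chromatically related but
not 3-chromatically related.
-/

set_option autoImplicit false

namespace Pool.Agent.V11139.Paw

/-- `c` is an `F`-free colouring of `H`: no colour class induces a subgraph of `H` that contains
`F` as an induced subgraph. -/
def IsFreeColoring {W U : Type*} {k : ℕ} (H : SimpleGraph W) (F : SimpleGraph U)
    (c : W → Fin k) : Prop :=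
  ∀ i : Fin k, IsEmpty (F ↪g H.induce {w | c w = i})

/-- The `F`-free chromatic number `χ(H : -F)` is at most `k`. -/
def FreeChromaticNumberLE {W U : Type*} (H : SimpleGraph W) (F : SimpleGraph U) (k : ℕ) : Prop :=
  ∃ c : W → Fin k, IsFreeColoring H F c

/-- The `F`-free chromatic number `χ(H : -F)` equals `k`: `k` is the least number of colours of an
`F`-free colouring of `H`. -/
def FreeChromaticNumberEq {W U : Type*} (H : SimpleGraph W) (F : SimpleGraph U) (k : ℕ) : Prop :=
  IsLeast {k : ℕ | ∃ c : W → Fin k, IsFreeColoring H F c} k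

/-- `F` and `G` are `n`-chromatically related: some finite graph `H` has
`χ(H : -F) = χ(H : -G) = n`. -/
def RelatedAt {U V : Type*} (n : ℕ) (F : SimpleGraph U) (G : SimpleGraph V) : Prop :=
  ∃ (W : Type) (_ : Finite W) (H : SimpleGraph W),
    FreeChromaticNumberEq H F n ∧ FreeChromaticNumberEq H G n

/-- The paw: a triangle `0, 1, 2` with the pendant vertex `3` attached at `0`. -/
def paw : SimpleGraph (Fin 4) where
  Adj i j := i ≠ j ∧ (i.val + j.val ≤ 3)
  symm := ⟨fun i j h => ⟨h.1.symm, by have := h.2; omega⟩⟩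
  loopless := ⟨fun i h => h.1 rfl⟩

/-- Pairs `i < j` of natural numbers below `N`. -/
abbrev Pairs (N : ℕ) : Type := {p : Fin N × Fin N // p.1 < p.2}

/-- The shift graph: `(i, j)` is adjacent to `(j, k)`. -/
def shiftGraph (N : ℕ) : SimpleGraph (Pairs N) where
  Adj p q := p.1.2 = q.1.1 ∨ q.1.2 = p.1.1
  symm := ⟨fun p q h => h.symm⟩
  loopless := ⟨fun p h => by
    have := p.2
    rcases h with h | h
    · exact absurd h this.ne'
    · exact absurd h this.ne'⟩

/-- The second graph. -/
def big : SimpleGraph ((Fin 4 ⊕ Fin 7) ⊕ Pairs 65) :=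
  (paw ⊕g (⊤ : SimpleGraph (Fin 7))) ⊕g shiftGraph 65

theorem embed_of {W U : Type*} {H : SimpleGraph W} {F : SimpleGraph U} {X : Set W} (f : U → W)
    (hX : ∀ u, f u ∈ X) (hinj : Function.Injective f)
    (hadj : ∀ u v, H.Adj (f u) (f v) ↔ F.Adj u v) : Nonempty (F ↪g H.induce X) :=
  ⟨⟨⟨fun u => ⟨f u, hX u⟩, fun _ _ h => hinj (congrArg Subtype.val h)⟩,
    fun {u v} => hadj u v⟩⟩

section Paw

variable {W : Type*} {H : SimpleGraph W} {X : Set W}

/-- In a set without induced paw, a neighbour of a vertex of a triangle has another neighbour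
in the triangle. -/
theorem paw_elim (hX : IsEmpty (paw ↪g H.induce X)) {a b c d : W} (ha : a ∈ X) (hb : b ∈ X)
    (hc : c ∈ X) (hd : d ∈ X) (hab : H.Adj a b) (hac : H.Adj a c) (hbc : H.Adj b c)
    (had : H.Adj a d) (hdb : d ≠ b) (hdc : d ≠ c) : H.Adj b d ∨ H.Adj c d := by
  by_contra hcon
  push Not at hcon
  obtain ⟨hbd, hcd⟩ := hcon
  have h1 := hab.ne
  have h2 := hac.ne
  have h3 := hbc.ne
  have h4 := had.ne
  have h5 := hab.symm
  have h6 := hac.symm
  have h7 := hbc.symm
  have h8 := had.symm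
  have h9 : ¬ H.Adj d b := fun h => hbd h.symm
  have h10 : ¬ H.Adj d c := fun h => hcd h.symm
  obtain ⟨e⟩ := embed_of (H := H) (F := paw) (X := X) ![a, b, c, d] (by
      intro u; fin_cases u <;> simp_all) (by
      intro i j hij
      fin_cases i <;> fin_cases j <;> simp_all) (by
      intro i j
      fin_cases i <;> fin_cases j <;> simp [paw, *])
  exact hX.false e

/-- The vertices of `X` that lie in a triangle of `X`. -/
def InTriangle (H : SimpleGraph W) (X : Set W) (x : W) : Prop :=
  ∃ y ∈ X, ∃ z ∈ X, H.Adj x y ∧ H.Adj x z ∧ H.Adj y z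

theorem edge_triangle (hX : IsEmpty (paw ↪g H.induce X)) {x y : W} (hx : x ∈ X) (hy : y ∈ X)
    (hxt : InTriangle H X x) (hxy : H.Adj x y) : ∃ z ∈ X, H.Adj x z ∧ H.Adj y z := by
  obtain ⟨a, ha, b, hb, hxa, hxb, hab⟩ := hxt
  by_cases hya : y = a
  · subst hya; exact ⟨b, hb, hxb, hab⟩
  by_cases hyb : y = b
  · subst hyb; exact ⟨a, ha, hxa, hab.symm⟩
  rcases paw_elim hX hx ha hb hy hxa hxb hab hxy hya hyb with h | h
  · exact ⟨a, ha, hxa, h.symm⟩
  · exact ⟨b, hb, hxb, h.symm⟩

theorem no_path (hX : IsEmpty (paw ↪g H.induce X)) {a b c d : W} (ha : a ∈ X) (hb : b ∈ X)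
    (hc : c ∈ X) (hd : d ∈ X) (hbt : InTriangle H X b) (hab : H.Adj a b) (hbc : H.Adj b c)
    (hcd : H.Adj c d) (hac : ¬ H.Adj a c) (hbd : ¬ H.Adj b d) (had : ¬ H.Adj a d)
    (hac' : a ≠ c) (hbd' : b ≠ d) (had' : a ≠ d) : False := by
  obtain ⟨e, he, hbe, hce⟩ := edge_triangle hX hb hc hbt hbc
  have hae : H.Adj e a := by
    have hne : a ≠ e := by rintro rfl; exact hac hce.symm
    rcases paw_elim hX hb hc he ha hbc hbe hce hab.symm hac' hne with h | h
    · exact absurd h.symm hac
    · exact h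
  have hde : H.Adj e d := by
    have hne : d ≠ e := by rintro rfl; exact hbd hbe
    rcases paw_elim hX hc hb he hd hbc.symm hce hbe hcd hbd'.symm hne with h | h
    · exact absurd h hbd
    · exact h
  rcases paw_elim hX he ha hb hd hae hbe.symm hab hde had'.symm hbd'.symm with h | h
  · exact had h
  · exact hbd h

end Paw

section Path

/-- There is a monochromatic increasing path with `m` edges of colour `k` ending at `i`. -/
def PathTo {N : ℕ} (c : Pairs N → Fin 3) (k : Fin 3) : ℕ → Fin N → Prop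
  | 0, _ => True
  | m + 1, i => ∃ (j : Fin N) (h : j < i), c ⟨(j, i), h⟩ = k ∧ PathTo c k m j

theorem exists_path (c : Pairs 65 → Fin 3) : ∃ (k : Fin 3) (i : Fin 65), PathTo c k 4 i := by
  classical
  by_contra hcon
  push Not at hcon
  have hinj : Function.Injective (fun (i : Fin 65) (k : Fin 3) =>
      (⟨Nat.findGreatest (fun m => PathTo c k m i) 3,
        Nat.lt_succ_of_le (Nat.findGreatest_le 3)⟩ : Fin 4)) := by
    have key : ∀ j i : Fin 65, ∀ h : j < i,
        Nat.findGreatest (fun m => PathTo c (c ⟨(j, i), h⟩) m j) 3 <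
          Nat.findGreatest (fun m => PathTo c (c ⟨(j, i), h⟩) m i) 3 := by
      intro j i h
      set k := c ⟨(j, i), h⟩ with hk
      set m := Nat.findGreatest (fun m => PathTo c k m j) 3 with hm
      have h1 : PathTo c k m j :=
        Nat.findGreatest_spec (P := fun m => PathTo c k m j) (m := 0) (Nat.zero_le 3) trivial
      have h2 : PathTo c k (m + 1) i := ⟨j, h, rfl, h1⟩
      have h3 : m ≤ 3 := Nat.findGreatest_le 3
      have h4 : m + 1 ≤ 3 := by
        by_contra h5
        have : m + 1 = 4 := by omega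
        rw [this] at h2
        exact hcon k i h2
      exact Nat.le_findGreatest h4 h2
    intro i j hij
    by_contra hne
    rcases lt_or_gt_of_ne hne with h | h
    · have h1 := key i j h
      have h2 := congrArg Fin.val (congrFun hij (c ⟨(i, j), h⟩))
      simp only at h2
      omega
    · have h1 := key j i h
      have h2 := congrArg Fin.val (congrFun hij (c ⟨(j, i), h⟩))
      simp only at h2
      omega
  have := Fintype.card_le_of_injective _ hinj
  simp at this

end Path

/-- Any host without three classes with an induced paw splits into two sets without induced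
`K₇ ⊕ shift graph`. -/
theorem two_colours {W : Type*} (H : SimpleGraph W) (c : W → Fin 3)
    (hc : IsFreeColoring H paw c) : FreeChromaticNumberLE H big 2 := by
  classical
  refine ⟨fun w => if InTriangle H {x | c x = c w} w then 0 else 1, ?_⟩
  intro i
  refine ⟨fun g => ?_⟩
  set f : ((Fin 4 ⊕ Fin 7) ⊕ Pairs 65) → W := fun u => (g u).1 with hf
  have hfinj : Function.Injective f := fun u v h => g.injective (Subtype.ext h)
  have hfadj : ∀ u v, H.Adj (f u) (f v) ↔ big.Adj u v := fun u v => g.map_adj_iff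
  have hfc : ∀ u, (if InTriangle H {x | c x = c (f u)} (f u) then (0 : Fin 2) else 1) = i :=
    fun u => (g u).2
  fin_cases i
  · -- the class of vertices in triangles contains no shift graph
    have hT : ∀ u, InTriangle H {x | c x = c (f u)} (f u) := by
      intro u
      have := hfc u
      by_contra hcon
      rw [if_neg hcon] at this
      exact absurd this (by decide)
    obtain ⟨k, i4, i3, h3, c3, i2, h2, c2, i1, h1, c1, i0, h0, c0, -⟩ :=
      exists_path (fun p => c (f (Sum.inr p)))
    have hX := hc k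
    have hadj : ∀ p q : Pairs 65, H.Adj (f (Sum.inr p)) (f (Sum.inr q)) ↔
        (p.1.2 = q.1.1 ∨ q.1.2 = p.1.1) := fun p q => hfadj _ _
    have hne : ∀ p q : Pairs 65, p ≠ q → f (Sum.inr p) ≠ f (Sum.inr q) := by
      intro p q hpq h
      exact hpq (Sum.inr_injective (hfinj h))
    have h01 := h0.trans h1
    have h12 := h1.trans h2
    have h23 := h2.trans h3
    have h02 := h01.trans h2
    have h13 := h12.trans h3
    have h03 := h02.trans h3
    refine no_path (H := H) (X := {x | c x = k}) hX (a := f (Sum.inr ⟨(i0, i1), h0⟩))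
      (b := f (Sum.inr ⟨(i1, i2), h1⟩)) (c := f (Sum.inr ⟨(i2, i3), h2⟩))
      (d := f (Sum.inr ⟨(i3, i4), h3⟩)) c0 c1 c2 c3 ?_ ?_ ?_ ?_ ?_ ?_ ?_ ?_ ?_ ?_
    · have h := hT (Sum.inr ⟨(i1, i2), h1⟩)
      have c1' : c (f (Sum.inr ⟨(i1, i2), h1⟩)) = k := c1
      rw [c1'] at h
      exact h
    · exact (hadj _ _).2 (Or.inl rfl)
    · exact (hadj _ _).2 (Or.inl rfl)
    · exact (hadj _ _).2 (Or.inl rfl)
    · rw [hadj]
      rintro (h | h)
      · exact absurd h h1.ne
      · exact absurd h h02.ne'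
    · rw [hadj]
      rintro (h | h)
      · exact absurd h h2.ne
      · exact absurd h h13.ne'
    · rw [hadj]
      rintro (h | h)
      · exact absurd h h12.ne
      · exact absurd h h03.ne'
    · exact hne _ _ (fun h => h01.ne (congrArg (fun p : Pairs 65 => p.1.1) h))
    · exact hne _ _ (fun h => h12.ne (congrArg (fun p : Pairs 65 => p.1.1) h))
    · exact hne _ _ (fun h => h02.ne (congrArg (fun p : Pairs 65 => p.1.1) h))
  · -- the class of vertices outside triangles contains no `K₇`
    have hT : ∀ u, ¬ InTriangle H {x | c x = c (f u)} (f u) := by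
      intro u
      have := hfc u
      by_contra hcon
      rw [if_pos hcon] at this
      exact absurd this (by decide)
    obtain ⟨k, hk⟩ := Fintype.exists_lt_card_fiber_of_mul_lt_card
      (fun j : Fin 7 => c (f (Sum.inl (Sum.inr j)))) (n := 2) (by simp)
    rw [Finset.two_lt_card] at hk
    obtain ⟨a, ha, b, hb, d, hd, hab, had, hbd⟩ := hk
    simp only [Finset.mem_filter, Finset.mem_univ, true_and] at ha hb hd
    have hadj : ∀ p q : Fin 7, p ≠ q →
        H.Adj (f (Sum.inl (Sum.inr p))) (f (Sum.inl (Sum.inr q))) := by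
      intro p q hpq
      rw [hfadj]
      exact hpq
    apply hT (Sum.inl (Sum.inr a))
    refine ⟨f (Sum.inl (Sum.inr b)), ?_, f (Sum.inl (Sum.inr d)), ?_, hadj _ _ hab,
      hadj _ _ had, hadj _ _ hbd⟩
    · exact hb.trans ha.symm
    · exact hd.trans ha.symm

/-- No host has both free chromatic numbers equal to three. -/
theorem not_related_three : ¬ RelatedAt 3 paw big := by
  rintro ⟨W, _, H, hF, hG⟩
  obtain ⟨c, hc⟩ := hF.1
  have h2 : (2 : ℕ) ∈ {k : ℕ | ∃ c : W → Fin k, IsFreeColoring H big c} := two_colours H c hc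
  exact absurd (hG.2 h2) (by norm_num)

/-- The paw has no induced copy of the big graph. -/
theorem paw_big : FreeChromaticNumberLE paw big 1 := by
  refine ⟨fun _ => 0, fun i => ⟨fun g => ?_⟩⟩
  have h := Fintype.card_le_of_injective (fun j : Fin 7 => (g (Sum.inl (Sum.inr j))).1)
    (fun a b hab => by
      have h1 := g.injective (Subtype.ext hab)
      exact Sum.inr_injective (Sum.inl_injective h1))
  simp at h

theorem adj_ll {a : Fin 4} {v : (Fin 4 ⊕ Fin 7) ⊕ Pairs 65}
    (h : big.Adj (Sum.inl (Sum.inl a)) v) : ∃ b, v = Sum.inl (Sum.inl b) ∧ paw.Adj a b := by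
  rcases v with (b | b) | b
  · exact ⟨b, rfl, h⟩
  · exact absurd h (by simp [big])
  · exact absurd h (by simp [big])

theorem adj_lr {a : Fin 7} {v : (Fin 4 ⊕ Fin 7) ⊕ Pairs 65}
    (h : big.Adj (Sum.inl (Sum.inr a)) v) : ∃ b, v = Sum.inl (Sum.inr b) := by
  rcases v with (b | b) | b
  · exact absurd h (by simp [big])
  · exact ⟨b, rfl⟩
  · exact absurd h (by simp [big])

theorem adj_r {a : Pairs 65} {v : (Fin 4 ⊕ Fin 7) ⊕ Pairs 65}
    (h : big.Adj (Sum.inr a) v) : ∃ b, v = Sum.inr b ∧ (shiftGraph 65).Adj a b := by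
  rcases v with (b | b) | b
  · exact absurd h (by simp [big])
  · exact absurd h (by simp [big])
  · exact ⟨b, rfl, h⟩

theorem shift_triangle {N : ℕ} {a b c : Pairs N} (hab : (shiftGraph N).Adj a b)
    (hac : (shiftGraph N).Adj a c) (hbc : (shiftGraph N).Adj b c) : False := by
  have ha := Fin.lt_def.1 a.2
  have hb := Fin.lt_def.1 b.2
  have hc := Fin.lt_def.1 c.2
  rcases hab with h | h <;> rcases hac with h' | h' <;> rcases hbc with h'' | h'' <;>
    rw [Fin.ext_iff] at h h' h'' <;> omega

/-- The big graph splits into two sets without induced paw. -/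
theorem big_paw : FreeChromaticNumberLE big paw 2 := by
  refine ⟨fun u => if u = Sum.inl (Sum.inl 0) then 1 else 0, fun i => ⟨fun g => ?_⟩⟩
  set f : Fin 4 → ((Fin 4 ⊕ Fin 7) ⊕ Pairs 65) := fun u => (g u).1 with hf
  have hfinj : Function.Injective f := fun u v h => g.injective (Subtype.ext h)
  have hfadj : ∀ u v, big.Adj (f u) (f v) ↔ paw.Adj u v := fun u v => g.map_adj_iff
  have hfc : ∀ u, (if f u = Sum.inl (Sum.inl 0) then (1 : Fin 2) else 0) = i := fun u => (g u).2
  have h01 : big.Adj (f 0) (f 1) := (hfadj _ _).2 (by simp [paw])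
  have h02 : big.Adj (f 0) (f 2) := (hfadj _ _).2 (by simp [paw])
  have h03 : big.Adj (f 0) (f 3) := (hfadj _ _).2 (by simp [paw])
  have h12 : big.Adj (f 1) (f 2) := (hfadj _ _).2 (by simp [paw])
  have h13 : ¬ big.Adj (f 1) (f 3) := fun h => absurd ((hfadj _ _).1 h) (by simp [paw])
  have hne13 : f 1 ≠ f 3 := fun h => absurd (hfinj h) (by decide)
  have hne01 : f 0 ≠ f 1 := fun h => absurd (hfinj h) (by decide)
  have hne02 : f 0 ≠ f 2 := fun h => absurd (hfinj h) (by decide)
  have hne03 : f 0 ≠ f 3 := fun h => absurd (hfinj h) (by decide)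
  have hne12 : f 1 ≠ f 2 := fun h => absurd (hfinj h) (by decide)
  have hne23 : f 2 ≠ f 3 := fun h => absurd (hfinj h) (by decide)
  rcases e0 : f 0 with (a | a) | a
  · rw [e0] at h01 h02 h03 hne01 hne02 hne03
    obtain ⟨b, eb, -⟩ := adj_ll h01
    obtain ⟨c, ec, -⟩ := adj_ll h02
    obtain ⟨d, ed, -⟩ := adj_ll h03
    have c0 := hfc 0
    have c1 := hfc 1
    have c2 := hfc 2
    have c3 := hfc 3
    rw [e0] at c0
    rw [eb] at hne01 hne12 hne13 c1
    rw [ec] at hne02 hne12 hne23 c2
    rw [ed] at hne03 hne13 hne23 c3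
    simp only [ne_eq, Sum.inl.injEq] at hne01 hne02 hne03 hne12 hne13 hne23 c0 c1 c2 c3
    clear * - hne01 hne02 hne03 hne12 hne13 hne23 c0 c1 c2 c3
    revert a b c d i
    decide
  · rw [e0] at h01 h02 h03
    obtain ⟨b, eb⟩ := adj_lr h01
    obtain ⟨d, ed⟩ := adj_lr h03
    rw [eb, ed] at h13 hne13
    apply h13
    have : b ≠ d := fun h => hne13 (by rw [h])
    exact this
  · rw [e0] at h01 h02
    obtain ⟨b, eb, hb⟩ := adj_r h01
    obtain ⟨c, ec, hc⟩ := adj_r h02
    rw [eb, ec] at h12
    exact shift_triangle hb hc h12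

theorem big_paw_one : ¬ FreeChromaticNumberLE big paw 1 := by
  rintro ⟨c, hc⟩
  obtain ⟨e⟩ := embed_of (H := big) (F := paw) (X := {w | c w = 0})
    (fun u => Sum.inl (Sum.inl u)) (fun u => Subsingleton.elim _ _)
    (Sum.inl_injective.comp Sum.inl_injective) (fun u v => Iff.rfl)
  exact (hc 0).false e

theorem big_big_one : ¬ FreeChromaticNumberLE big big 1 := by
  rintro ⟨c, hc⟩
  obtain ⟨e⟩ := embed_of (H := big) (F := big) (X := {w | c w = 0})
    id (fun u => Subsingleton.elim _ _) Function.injective_id (fun u v => Iff.rfl)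
  exact (hc 0).false e

theorem big_big_two : FreeChromaticNumberLE big big 2 := by
  classical
  refine ⟨fun u => if u = Sum.inl (Sum.inl 0) then 1 else 0, fun i => ⟨fun g => ?_⟩⟩
  have hsurj : Function.Surjective (fun u => (g u).1) :=
    Finite.surjective_of_injective (fun u v h => g.injective (Subtype.ext h))
  obtain ⟨u, hu⟩ := hsurj (Sum.inl (Sum.inl 0))
  obtain ⟨v, hv⟩ := hsurj (Sum.inl (Sum.inl 1))
  have h1 := (g u).2
  have h2 := (g v).2
  simp only at hu hv
  rw [hu] at h1
  rw [hv] at h2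
  change (if (Sum.inl (Sum.inl 0) : (Fin 4 ⊕ Fin 7) ⊕ Pairs 65) = Sum.inl (Sum.inl 0)
    then (1 : Fin 2) else 0) = i at h1
  change (if (Sum.inl (Sum.inl 1) : (Fin 4 ⊕ Fin 7) ⊕ Pairs 65) = Sum.inl (Sum.inl 0)
    then (1 : Fin 2) else 0) = i at h2
  rw [if_pos rfl] at h1
  rw [if_neg (by simp)] at h2
  rw [← h1] at h2
  exact absurd h2 (by decide)

theorem zero_not {U : Type*} (F : SimpleGraph U) :
    ¬ ∃ c : ((Fin 4 ⊕ Fin 7) ⊕ Pairs 65) → Fin 0, IsFreeColoring big F c := by
  rintro ⟨c, -⟩
  exact (c (Sum.inl (Sum.inl 0))).elim0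

theorem eq_two {U : Type*} (F : SimpleGraph U) (h2 : FreeChromaticNumberLE big F 2)
    (h1 : ¬ FreeChromaticNumberLE big F 1) : FreeChromaticNumberEq big F 2 := by
  refine ⟨h2, ?_⟩
  intro k hk
  by_contra hlt
  have : k = 0 ∨ k = 1 := by omega
  rcases this with rfl | rfl
  · exact zero_not F hk
  · exact h1 hk

/-- The pair is 2-chromatically related. -/
theorem related_two : RelatedAt 2 paw big :=
  ⟨_, inferInstance, big, eq_two paw big_paw big_paw_one, eq_two big big_big_two big_big_one⟩

end Pool.Agent.V11139.Paw
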